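import Pool.Agent.W663.KK.Final

set_option autoImplicit false

open scoped InnerProductSpace ENNReal
open Pool.Agent.Helper278 Pool.Agent.W663.KK

namespace Pool.Agent.Results.MP_41729c_an.CloseDim

/-- **Coupling constants of Kadison–Kastler-close II₁ factors agree, with a universal constant.**
There is `δ > 0` such that for every Hilbert space `H` and all II₁ factors `M, N` on `H` at
Kadison–Kastler distance less than `δ`, the Murray–von Neumann dimensions of `H` over `M` and over
`N` are equal. The second part says that the dimension `vnDim M τ` is the classical coupling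
constant: if `H` is the orthogonal direct sum of cyclic modules `[M η j]` isomorphic to
`L²(M) f j`, then `vnDim M τ = ∑ τ(f j)`. -/
theorem result :
    (∃ δ : ℝ, 0 < δ ∧ ∀ (H : Type) [NormedAddCommGroup H] [InnerProductSpace ℂ H]
      [CompleteSpace H] (M N : VonNeumannAlgebra H) (τ : Elt M → ℂ) (σ : Elt N → ℂ),
      IsIIOneFactor M τ → IsIIOneFactor N σ → kkDist M N < δ → vnDim M τ = vnDim N σ) ∧
    ∀ (H : Type) [NormedAddCommGroup H] [InnerProductSpace ℂ H] [CompleteSpace H]
      (M : VonNeumannAlgebra H) (τ : Elt M → ℂ), IsIIOneFactor M τ →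
      ∀ (J : Type) (η : J → H) (f : J → Elt M), Fam M τ η f → IsGenerating M η →
        vnDim M τ = ∑' j, ENNReal.ofReal (τ (f j)).re := by
  refine ⟨⟨1 / (400 * KC), ?_, ?_⟩, ?_⟩
  · have := KC_ge
    positivity
  · intro H _ _ _ M N τ σ hM hN h
    have hpos : (0 : ℝ) < 1 / (400 * KC) := by
      have := KC_ge
      positivity
    exact vnDim_eq hpos le_rfl τ σ hM hN h
  · intro H _ _ _ M τ hM J η f hF hgen
    exact vnDim_of_generating τ hM hF hgen

end Pool.Agent.Results.MP_41729c_an.CloseDim
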